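import Pool.Agent.P8H57.PC.MovA

set_option autoImplicit false

/-!
# A point of a flow does not move far in a short time (package MOV of helper8's plan)
-/

namespace Pool.Agent.P8H57.PC

open Finset Filter Topology
open Pool.Agent.P8H8.HF

/-- uniform indices outside a compact window -/
lemma exists_index {y : ℝ → ℤ → ℝ} {R : ℝ} (hF : Flow y R) {τ σ : ℝ} (h0 : 0 < τ) (hR : σ < R) (p q : ℝ) :
    ∃ B : ℕ, ∀ s ∈ Set.Icc τ σ, y s (-(B : ℤ)) ≤ p ∧ q ≤ y s B := by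
  have hmono : ∀ s ∈ Set.Icc τ σ, StrictMono (y s) := fun s hs => hF.mono s (h0.trans_le hs.1) (hs.2.trans_lt hR)
  have hup : ∀ s ∈ Set.Icc τ σ, ∀ B C : ℕ, B ≤ C → (y s (-(B : ℤ)) ≤ p ∧ q ≤ y s B) →
      (y s (-(C : ℤ)) ≤ p ∧ q ≤ y s C) := by
    intro s hs B C hBC h
    have hm := (hmono s hs).monotone
    refine ⟨(hm (by omega)).trans h.1, h.2.trans (hm (by exact_mod_cast hBC))⟩
  have key := isCompact_Icc.induction_on (s := Set.Icc τ σ)
    (p := fun U => ∃ B : ℕ, ∀ s ∈ U, s ∈ Set.Icc τ σ → y s (-(B : ℤ)) ≤ p ∧ q ≤ y s B) ?_ ?_ ?_ ?_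
  · obtain ⟨B, hB⟩ := key
    exact ⟨B, fun s hs => hB s hs hs⟩
  · exact ⟨0, fun s hs => absurd hs (Set.notMem_empty s)⟩
  · rintro U V hUV ⟨B, hB⟩
    exact ⟨B, fun s hs hs' => hB s (hUV hs) hs'⟩
  · rintro U V ⟨B, hB⟩ ⟨C, hC⟩
    refine ⟨max B C, fun s hs hs' => ?_⟩
    rcases hs with hs | hs
    · exact hup s hs' B _ (le_max_left _ _) (hB s hs hs')
    · exact hup s hs' C _ (le_max_right _ _) (hC s hs hs')
  · intro t ht
    have ht0 := h0.trans_le ht.1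
    have htR := ht.2.trans_lt hR
    have h1 := (hF.top t ht0 htR).eventually (eventually_gt_atTop q)
    have h2 := (hF.bot t ht0 htR).eventually (eventually_lt_atBot p)
    obtain ⟨B, hB1, hB2⟩ := (h1.and h2).exists
    have hc1 : ContinuousAt (fun s => y s (B : ℤ)) t := by
      obtain ⟨v, hv, -⟩ := hF.der t ht0 htR (B : ℤ)
      exact hv.continuousAt
    have hc2 : ContinuousAt (fun s => y s (-(B : ℤ))) t := by
      obtain ⟨v, hv, -⟩ := hF.der t ht0 htR (-(B : ℤ))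
      exact hv.continuousAt
    have h3 := (hc1.eventually (lt_mem_nhds hB1)).and (hc2.eventually (gt_mem_nhds hB2))
    refine ⟨{s | q < y s (B : ℤ) ∧ y s (-(B : ℤ)) < p}, mem_nhdsWithin_of_mem_nhds h3, B, ?_⟩
    intro s hs _
    exact ⟨hs.2.le, hs.1.le⟩

/-- nobody crosses a short interval -/
theorem no_crossing {y : ℝ → ℤ → ℝ} {R : ℝ} (hF : Flow y R) {τ σ x a K p w : ℝ} (k : ℤ)
    (h0 : 0 < τ) (hR : σ < R) (ha : 0 < a) (hw : w = a / 32)
    (hp1 : x - a / 8 ≤ p) (hp2 : p + w ≤ x + a / 8) (hKK : (σ - τ) * (30000 * K ^ 2) ≤ 1)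
    (hK : ∀ s, τ ≤ s → s ≤ σ → ∀ᶠ M : ℕ in atTop,
      ‖∑ i ∈ Ico (-(M : ℤ)) M, ((x : ℂ) - (y s i : ℂ) - Complex.I * (a : ℂ))⁻¹‖ ≤ K)
    {s₁ s₂ : ℝ} (hs1 : s₁ ∈ Set.Icc τ σ) (hs2 : s₂ ∈ Set.Icc τ σ) (hl : y s₁ k ≤ p) (hr : p + w ≤ y s₂ k) : False := by
  have hw0 : 0 < w := by rw [hw]; positivity
  obtain ⟨B0, hB0⟩ := exists_index hF h0 hR p (p + w)
  have hmono : ∀ s ∈ Set.Icc τ σ, StrictMono (y s) := fun s hs => hF.mono s (h0.trans_le hs.1) (hs.2.trans_lt hR)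
  set B := B0 + k.natAbs + 1 with hBdef
  have hB : ∀ s ∈ Set.Icc τ σ, y s (-(B : ℤ)) ≤ p ∧ p + w ≤ y s B := by
    intro s hs
    have hm := (hmono s hs).monotone
    have h1 := hB0 s hs
    exact ⟨(hm (by omega)).trans h1.1, h1.2.trans (hm (by omega))⟩
  have hkB : k ∈ Ico (-(B : ℤ)) B := by
    rw [mem_Ico]; omega
  set Th : ℝ → ℝ := fun s => ∑ j ∈ Ico (-(B : ℤ)) B, hh p w (y s j) with hTh
  -- the derivative
  have hder : ∀ s ∈ Set.Icc τ σ, ∃ V : ℝ, HasDerivAt Th V s ∧ |V| ≤ 5 * a ^ 2 * K ^ 2 := by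
    intro s hs
    have hs0 := h0.trans_le hs.1
    have hsR := hs.2.trans_lt hR
    choose v hv hlim using fun j => hF.der s hs0 hsR j
    refine ⟨∑ j ∈ Ico (-(B : ℤ)) B, tent p w (y s j) * v j, ?_, ?_⟩
    · rw [hTh]
      have := HasDerivAt.fun_sum (u := Ico (-(B : ℤ)) B) (A := fun j s => hh p w (y s j))
        (A' := fun j => tent p w (y s j) * v j) (x := s)
        (fun j _ => HasDerivAt.comp (h := fun s => y s j) (h₂ := hh p w) s (hh_der p w (y s j)) (hv j))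
      exact this
    · have hT : Tendsto (fun M : ℕ => |∑ j ∈ Ico (-(B : ℤ)) B, tent p w (y s j) * vel (y s) M j|) atTop
          (𝓝 |∑ j ∈ Ico (-(B : ℤ)) B, tent p w (y s j) * v j|) := by
        apply Tendsto.abs
        apply tendsto_finsetSum
        intro j _
        exact (hlim j).const_mul _
      refine le_of_tendsto hT ?_
      filter_upwards [hK s hs.1 hs.2, eventually_ge_atTop B] with M hM hMB
      have h1 : ∑ j ∈ Ico (-(B : ℤ)) B, tent p w (y s j) * vel (y s) M j =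
          ∑ j ∈ Ico (-(M : ℤ)) M, tent p w (y s j) * vel (y s) M j := by
        apply sum_subset
        · intro j hj
          rw [mem_Ico] at hj ⊢
          omega
        · intro j hj hj2
          rw [mem_Ico] at hj hj2
          have hm := (hmono s hs).monotone
          rcases lt_or_ge j (-(B : ℤ)) with h | h
          · rw [tent_left hw0.le ((hm h.le).trans (hB s hs).1), zero_mul]
          · rw [tent_right hw0.le ((hB s hs).2.trans (hm (by omega))), zero_mul]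
      rw [h1]
      have h2 := key (Ico (-(M : ℤ)) M) (y s) x a K p w ha hw hp1 hp2 hM
      exact h2
  -- the mean value inequality
  have hmv : ‖Th s₂ - Th s₁‖ ≤ 5 * a ^ 2 * K ^ 2 * ‖s₂ - s₁‖ := by
    choose! V hV hV2 using hder
    exact Convex.norm_image_sub_le_of_norm_hasDerivWithin_le (s := Set.Icc τ σ) (f := Th) (f' := V)
      (fun s hs => (hV s hs).hasDerivWithinAt) (fun s hs => by rw [Real.norm_eq_abs]; exact hV2 s hs)
      (convex_Icc _ _) hs1 hs2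
  have h3 : |s₂ - s₁| ≤ σ - τ := by
    rw [abs_le]
    constructor <;> linarith [hs1.1, hs1.2, hs2.1, hs2.2]
  rw [Real.norm_eq_abs, Real.norm_eq_abs] at hmv
  have h4 : Th s₂ - Th s₁ ≤ a ^ 2 / 6000 := by
    have h5 : 5 * a ^ 2 * K ^ 2 * |s₂ - s₁| ≤ 5 * a ^ 2 * K ^ 2 * (σ - τ) := by gcongr
    have h6 : 5 * a ^ 2 * K ^ 2 * (σ - τ) = a ^ 2 / 6000 * ((σ - τ) * (30000 * K ^ 2)) := by ring
    have h7 : a ^ 2 / 6000 * ((σ - τ) * (30000 * K ^ 2)) ≤ a ^ 2 / 6000 * 1 := by gcongr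
    linarith [le_abs_self (Th s₂ - Th s₁)]
  -- the lower bound
  have h8 : w ^ 2 / 4 ≤ Th s₂ - Th s₁ := by
    have e : Th s₂ - Th s₁ = ∑ j ∈ Ico (-(B : ℤ)) B, (hh p w (y s₂ j) - hh p w (y s₁ j)) := by
      rw [hTh]
      simp only
      rw [sum_sub_distrib]
    have hpos : ∀ j ∈ Ico (-(B : ℤ)) B, 0 ≤ hh p w (y s₂ j) - hh p w (y s₁ j) := by
      intro j _
      have hle : ∀ u, hh p w u ≤ w ^ 2 / 4 := fun u => by
        rw [← hh_right hw0.le (le_max_left (p + w) u)]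
        exact hh_mono p w (le_max_right _ _)
      have hge : ∀ u, 0 ≤ hh p w u := fun u => by
        rw [← hh_left hw0.le (min_le_left p u)]
        exact hh_mono p w (min_le_right _ _)
      rcases le_total j k with h | h
      · rw [hh_left hw0.le (((hmono s₁ hs1).monotone h).trans hl), sub_zero]
        exact hge _
      · rw [hh_right hw0.le (hr.trans ((hmono s₂ hs2).monotone h))]
        linarith [hle (y s₁ j)]
    rw [e]
    refine le_trans ?_ (single_le_sum hpos hkB)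
    rw [hh_left hw0.le hl, hh_right hw0.le hr, sub_zero]
  have h9 : w ^ 2 / 4 = a ^ 2 / 4096 := by rw [hw]; ring
  have h10 : 0 < a ^ 2 := by positivity
  linarith

/-- MOV: a point does not move far in a short time. -/
theorem mov_aux (y : ℝ → ℤ → ℝ) (R : ℝ) (hF : Flow y R) (τ σ x a K : ℝ) (k : ℤ)
    (h0 : 0 < τ) (_h1 : τ ≤ σ) (hR : σ < R) (ha : 0 < a) (_hK1 : 1 ≤ a * K) (hx : y σ k = x)
    (hKK : (σ - τ) * (30000 * K ^ 2) ≤ 1)
    (hK : ∀ s, τ ≤ s → s ≤ σ → ∀ᶠ M : ℕ in atTop,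
      ‖∑ i ∈ Ico (-(M : ℤ)) M, ((x : ℂ) - (y s i : ℂ) - Complex.I * (a : ℂ))⁻¹‖ ≤ K) :
    ∀ s, τ ≤ s → s ≤ σ → |y s k - x| ≤ a / 16 := by
  intro s hs1 hs2
  have hsm : s ∈ Set.Icc τ σ := ⟨hs1, hs2⟩
  have hσm : σ ∈ Set.Icc τ σ := ⟨hs1.trans hs2, le_rfl⟩
  rw [abs_le]
  constructor
  · by_contra hc
    push Not at hc
    exact no_crossing hF (p := x - a / 16) (w := a / 32) k h0 hR ha rfl (by linarith) (by linarith) hKK hK hsm hσm
      (by linarith) (by linarith)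
  · by_contra hc
    push Not at hc
    exact no_crossing hF (p := x + a / 32) (w := a / 32) k h0 hR ha rfl (by linarith) (by linarith) hKK hK hσm hsm
      (by linarith) (by linarith)

end Pool.Agent.P8H57.PC
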