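import Pool.Agent.P8H8.PC.Stm
import Pool.Agent.P8H57.PC.MovB

set_option autoImplicit false

/-!
# Package MOV of helper8's plan
-/

namespace Pool.Agent.P8H57.PC

/-- MOV: a point does not move far in a short time. -/
theorem mov : Pool.Agent.P8H8.PC.S_MOV :=
  fun y R hF τ σ x a K k h0 h1 hR ha hK1 hx hKK hK => mov_aux y R hF τ σ x a K k h0 h1 hR ha hK1 hx hKK hK

end Pool.Agent.P8H57.PC
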