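import Pool.Agent.P8H8.HF.Flow

set_option autoImplicit false

/-!
# A point of a flow does not move far in a short time (package MOV of helper8's plan): static part
-/

namespace Pool.Agent.P8H57.PC

open Finset Filter Topology

/-- the tent function on `[p, p + w]` -/
noncomputable def tent (p w t : ℝ) : ℝ := max 0 (w / 2 - |t - (p + w / 2)|)

/-- its primitive -/
noncomputable def hh (p w u : ℝ) : ℝ := ∫ t in p..u, tent p w t

lemma tent_cont (p w : ℝ) : Continuous (tent p w) := by unfold tent; fun_prop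

lemma tent_nonneg (p w t : ℝ) : 0 ≤ tent p w t := le_max_left _ _

lemma tent_le {p w : ℝ} (hw : 0 ≤ w) (t : ℝ) : tent p w t ≤ w / 2 := by
  unfold tent
  refine max_le (by linarith) ?_
  have := abs_nonneg (t - (p + w / 2))
  linarith

lemma tent_lip (p w s t : ℝ) : |tent p w s - tent p w t| ≤ |s - t| := by
  unfold tent
  refine (abs_max_sub_max_le_max _ _ _ _).trans ?_
  rw [sub_self, abs_zero]
  refine max_le (abs_nonneg _) ?_
  have h1 : w / 2 - |s - (p + w / 2)| - (w / 2 - |t - (p + w / 2)|) =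
      |t - (p + w / 2)| - |s - (p + w / 2)| := by ring
  rw [h1]
  refine (abs_abs_sub_abs_le_abs_sub _ _).trans ?_
  rw [abs_sub_comm s t]
  have h2 : t - (p + w / 2) - (s - (p + w / 2)) = t - s := by ring
  rw [h2]

lemma tent_left {p w t : ℝ} (hw : 0 ≤ w) (ht : t ≤ p) : tent p w t = 0 := by
  unfold tent
  apply max_eq_left
  have : |t - (p + w / 2)| = p + w / 2 - t := by
    rw [abs_of_nonpos (by linarith)]; ring
  rw [this]
  linarith

lemma tent_right {p w t : ℝ} (hw : 0 ≤ w) (ht : p + w ≤ t) : tent p w t = 0 := by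
  unfold tent
  apply max_eq_left
  have : |t - (p + w / 2)| = t - (p + w / 2) := abs_of_nonneg (by linarith)
  rw [this]
  linarith

lemma hh_der (p w u : ℝ) : HasDerivAt (hh p w) (tent p w u) u :=
  intervalIntegral.integral_hasDerivAt_right ((tent_cont p w).intervalIntegrable _ _)
    ((tent_cont p w).stronglyMeasurableAtFilter _ _) (tent_cont p w).continuousAt

lemma hh_mono (p w : ℝ) : Monotone (hh p w) :=
  monotone_of_deriv_nonneg (fun u => (hh_der p w u).differentiableAt) (fun u => by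
    rw [(hh_der p w u).deriv]; exact tent_nonneg p w u)

lemma hh_left {p w u : ℝ} (hw : 0 ≤ w) (hu : u ≤ p) : hh p w u = 0 := by
  unfold hh
  have : Set.EqOn (tent p w) (fun _ => (0 : ℝ)) (Set.uIcc p u) := by
    intro t ht
    rw [Set.uIcc_of_ge hu] at ht
    exact tent_left hw ht.2
  rw [intervalIntegral.integral_congr this, intervalIntegral.integral_zero]

lemma hh_right {p w u : ℝ} (hw : 0 ≤ w) (hu : p + w ≤ u) : hh p w u = w ^ 2 / 4 := by
  have hi : ∀ a b : ℝ, IntervalIntegrable (tent p w) MeasureTheory.volume a b := fun a b =>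
    (tent_cont p w).intervalIntegrable a b
  unfold hh
  rw [← intervalIntegral.integral_add_adjacent_intervals (hi p (p + w / 2)) (hi (p + w / 2) u),
    ← intervalIntegral.integral_add_adjacent_intervals (hi (p + w / 2) (p + w)) (hi (p + w) u)]
  have h1 : ∫ t in p..(p + w / 2), tent p w t = ∫ t in p..(p + w / 2), (t - p) := by
    apply intervalIntegral.integral_congr
    intro t ht
    rw [Set.uIcc_of_le (by linarith)] at ht
    unfold tent
    rw [abs_of_nonpos (by linarith [ht.2]), max_eq_right (by linarith [ht.1])]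
    ring
  have h2 : ∫ t in (p + w / 2)..(p + w), tent p w t = ∫ t in (p + w / 2)..(p + w), (p + w - t) := by
    apply intervalIntegral.integral_congr
    intro t ht
    rw [Set.uIcc_of_le (by linarith)] at ht
    unfold tent
    rw [abs_of_nonneg (by linarith [ht.1]), max_eq_right (by linarith [ht.2])]
    ring
  have h3 : ∫ t in (p + w)..u, tent p w t = 0 := by
    have : Set.EqOn (tent p w) (fun _ => (0 : ℝ)) (Set.uIcc (p + w) u) := by
      intro t ht
      rw [Set.uIcc_of_le hu] at ht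
      exact tent_right hw ht.1
    rw [intervalIntegral.integral_congr this, intervalIntegral.integral_zero]
  rw [h1, h2, h3, intervalIntegral.integral_sub (by simp) (by simp), intervalIntegral.integral_sub (by simp) (by simp),
    integral_id, integral_id, intervalIntegral.integral_const, intervalIntegral.integral_const]
  simp only [smul_eq_mul]
  ring

lemma im_inv (u a : ℝ) : (((u : ℂ) - Complex.I * (a : ℂ))⁻¹).im = a / (u ^ 2 + a ^ 2) := by
  rw [Complex.inv_im]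
  simp [Complex.normSq_apply]
  ring

lemma norm_sub_I (u a : ℝ) : ‖(u : ℂ) - Complex.I * (a : ℂ)‖ ^ 2 = u ^ 2 + a ^ 2 := by
  rw [← Complex.normSq_eq_norm_sq]
  simp [Complex.normSq_apply]
  ring

/-- the sum of the Poisson kernels is at most `K` -/
lemma poisson_le (S : Finset ℤ) (y : ℤ → ℝ) (x a K : ℝ)
    (hK : ‖∑ i ∈ S, ((x : ℂ) - (y i : ℂ) - Complex.I * (a : ℂ))⁻¹‖ ≤ K) :
    ∑ i ∈ S, a / ((x - y i) ^ 2 + a ^ 2) ≤ K := by
  refine le_trans ?_ hK
  refine le_trans ?_ (Complex.im_le_norm _)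
  rw [Complex.im_sum]
  apply le_of_eq
  apply sum_congr rfl
  intro i _
  rw [← Complex.ofReal_sub, im_inv]

lemma card_near (S : Finset ℤ) (y : ℤ → ℝ) (x a K : ℝ) (ha : 0 < a)
    (hP : ∑ i ∈ S, a / ((x - y i) ^ 2 + a ^ 2) ≤ K) :
    (((S.filter (fun i => |y i - x| ≤ a)).card : ℕ) : ℝ) ≤ 2 * a * K := by
  have h1 : ∑ i ∈ S.filter (fun i => |y i - x| ≤ a), (1 / (2 * a)) ≤
      ∑ i ∈ S.filter (fun i => |y i - x| ≤ a), a / ((x - y i) ^ 2 + a ^ 2) := by
    apply sum_le_sum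
    intro i hi
    rw [mem_filter] at hi
    have h2 := abs_le.1 hi.2
    have h3 : (x - y i) ^ 2 ≤ a ^ 2 := by nlinarith
    have h4 : 0 < (x - y i) ^ 2 + a ^ 2 := by positivity
    rw [div_le_div_iff₀ (by positivity) h4]
    nlinarith
  have h5 : ∑ i ∈ S.filter (fun i => |y i - x| ≤ a), a / ((x - y i) ^ 2 + a ^ 2) ≤
      ∑ i ∈ S, a / ((x - y i) ^ 2 + a ^ 2) := by
    apply sum_le_sum_of_subset_of_nonneg (filter_subset _ _)
    intro i _ _
    positivity
  rw [sum_const, nsmul_eq_mul, mul_one_div] at h1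
  have h6 := (h1.trans h5).trans hP
  rw [div_le_iff₀ (by positivity)] at h6
  linarith

lemma far_term (x a v u : ℝ) (ha : 0 < a) (hv : |v - x| ≤ a / 8) (hu : a < |u - x|) :
    ‖(((v - u)⁻¹ : ℝ) : ℂ) - ((x : ℂ) - (u : ℂ) - Complex.I * (a : ℂ))⁻¹‖ ≤ 2 * (a / ((x - u) ^ 2 + a ^ 2)) := by
  have hq : 0 < (x - u) ^ 2 + a ^ 2 := by positivity
  have hn2 : ‖(x : ℂ) - (u : ℂ) - Complex.I * (a : ℂ)‖ ^ 2 = (x - u) ^ 2 + a ^ 2 := by
    rw [← Complex.ofReal_sub, norm_sub_I]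
  have hn0 : 0 < ‖(x : ℂ) - (u : ℂ) - Complex.I * (a : ℂ)‖ := by
    by_contra hc
    have : ‖(x : ℂ) - (u : ℂ) - Complex.I * (a : ℂ)‖ = 0 := le_antisymm (not_lt.1 hc) (norm_nonneg _)
    rw [this] at hn2
    norm_num at hn2
    linarith
  have hne : (x : ℂ) - (u : ℂ) - Complex.I * (a : ℂ) ≠ 0 := norm_pos_iff.1 hn0
  have hvu : 7 / 8 * |u - x| ≤ |v - u| := by
    have h1 : |u - x| ≤ |v - u| + |v - x| := by
      have := abs_sub_le u v x
      rwa [abs_sub_comm u v] at this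
    linarith
  have hux : 0 < |u - x| := ha.trans hu
  have hvu0 : 0 < |v - u| := by nlinarith
  have hvu1 : v - u ≠ 0 := abs_pos.1 hvu0
  have hvu2 : (v : ℂ) - (u : ℂ) ≠ 0 := by
    rw [← Complex.ofReal_sub]
    exact_mod_cast hvu1
  have he : (((v - u)⁻¹ : ℝ) : ℂ) - ((x : ℂ) - (u : ℂ) - Complex.I * (a : ℂ))⁻¹ =
      (((x - v : ℝ) : ℂ) - Complex.I * (a : ℂ)) / ((((v - u : ℝ) : ℂ)) * ((x : ℂ) - (u : ℂ) - Complex.I * (a : ℂ))) := by
    push_cast
    field_simp
    ring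
  rw [he, norm_div, norm_mul, Complex.norm_real, Real.norm_eq_abs]
  set n := ‖(x : ℂ) - (u : ℂ) - Complex.I * (a : ℂ)‖ with hn
  set m := ‖((x - v : ℝ) : ℂ) - Complex.I * (a : ℂ)‖ with hm
  have hm2 : m ^ 2 = (x - v) ^ 2 + a ^ 2 := norm_sub_I _ _
  have hm0 : 0 ≤ m := norm_nonneg _
  have hxv : (x - v) ^ 2 ≤ (a / 8) ^ 2 := by
    have := abs_le.1 hv
    nlinarith
  have hm3 : m ≤ 33 / 32 * a := by
    by_contra hc
    push Not at hc
    nlinarith
  have hun : (x - u) ^ 2 = |u - x| ^ 2 := by rw [sq_abs]; ring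
  have h7 : n ≤ 3 / 2 * |u - x| := by
    by_contra hc
    push Not at hc
    nlinarith
  rw [← hn2]
  rw [div_le_iff₀ (by positivity)]
  have h8 : 2 * (a / n ^ 2) * (|v - u| * n) = 2 * a * |v - u| / n := by
    field_simp
  rw [h8, le_div_iff₀ hn0]
  nlinarith

/-- the key estimate for the truncated sums -/
theorem key (S : Finset ℤ) (y : ℤ → ℝ) (x a K p w : ℝ) (ha : 0 < a) (hw : w = a / 32)
    (hp1 : x - a / 8 ≤ p) (hp2 : p + w ≤ x + a / 8)
    (hK : ‖∑ i ∈ S, ((x : ℂ) - (y i : ℂ) - Complex.I * (a : ℂ))⁻¹‖ ≤ K) :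
    |∑ j ∈ S, tent p w (y j) * (2 * ∑ i ∈ S.erase j, (y j - y i)⁻¹)| ≤ 5 * a ^ 2 * K ^ 2 := by
  have hw0 : 0 < w := by rw [hw]; positivity
  have hK0 : 0 ≤ K := (norm_nonneg _).trans hK
  have hP := poisson_le S y x a K hK
  have hcard := card_near S y x a K ha hP
  set N := S.filter (fun i => |y i - x| ≤ a) with hN
  set F := S.filter (fun i => ¬ |y i - x| ≤ a) with hF
  have hsplit : ∀ f : ℤ → ℝ, ∑ i ∈ S, f i = ∑ i ∈ N, f i + ∑ i ∈ F, f i := fun f =>
    (sum_filter_add_sum_filter_not S _ f).symm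
  have hsplitC : ∀ f : ℤ → ℂ, ∑ i ∈ S, f i = ∑ i ∈ N, f i + ∑ i ∈ F, f i := fun f =>
    (sum_filter_add_sum_filter_not S _ f).symm
  have herase : ∀ j ∈ S, ∑ i ∈ S.erase j, (y j - y i)⁻¹ = ∑ i ∈ S, (y j - y i)⁻¹ := by
    intro j hj
    rw [← add_sum_erase S _ hj, sub_self, inv_zero, zero_add]
  -- where the tent is not zero
  have hsupp : ∀ j, tent p w (y j) ≠ 0 → |y j - x| ≤ a / 8 := by
    intro j hj
    have h1 : p < y j := by
      by_contra hc
      exact hj (tent_left hw0.le (not_lt.1 hc))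
    have h2 : y j < p + w := by
      by_contra hc
      exact hj (tent_right hw0.le (not_lt.1 hc))
    rw [abs_le]
    constructor <;> linarith
  have hFzero : ∀ j ∈ F, tent p w (y j) = 0 := by
    intro j hj
    by_contra hc
    have h1 := hsupp j hc
    rw [hF, mem_filter] at hj
    exact hj.2 (by linarith)
  have e1 : ∑ j ∈ S, tent p w (y j) * (2 * ∑ i ∈ S.erase j, (y j - y i)⁻¹) =
      ∑ j ∈ N, tent p w (y j) * (2 * ∑ i ∈ N, (y j - y i)⁻¹) +
      ∑ j ∈ N, tent p w (y j) * (2 * ∑ i ∈ F, (y j - y i)⁻¹) := by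
    rw [sum_congr rfl (fun j hj => by rw [herase j hj]), hsplit,
      sum_eq_zero (s := F) (fun j hj => by rw [hFzero j hj, zero_mul]), add_zero, ← sum_add_distrib]
    apply sum_congr rfl
    intro j _
    rw [hsplit]
    ring
  -- near-near
  have e2 : ∑ j ∈ N, tent p w (y j) * (2 * ∑ i ∈ N, (y j - y i)⁻¹) =
      ∑ j ∈ N, ∑ i ∈ N, (tent p w (y j) - tent p w (y i)) * (y j - y i)⁻¹ := by
    have h1 : ∑ j ∈ N, tent p w (y j) * (2 * ∑ i ∈ N, (y j - y i)⁻¹) =
        ∑ j ∈ N, ∑ i ∈ N, tent p w (y j) * (y j - y i)⁻¹ + ∑ j ∈ N, ∑ i ∈ N, tent p w (y j) * (y j - y i)⁻¹ := by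
      rw [← sum_add_distrib]
      apply sum_congr rfl
      intro j _
      rw [← mul_sum]
      ring
    rw [h1]
    nth_rewrite 2 [sum_comm]
    rw [← sum_add_distrib]
    apply sum_congr rfl
    intro j _
    rw [← sum_add_distrib]
    apply sum_congr rfl
    intro i _
    have h2 : (y i - y j)⁻¹ = -(y j - y i)⁻¹ := by rw [← neg_sub, inv_neg]
    rw [h2]
    ring
  have h3 : |∑ j ∈ N, tent p w (y j) * (2 * ∑ i ∈ N, (y j - y i)⁻¹)| ≤ (2 * a * K) ^ 2 := by
    rw [e2]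
    have h4 : |∑ j ∈ N, ∑ i ∈ N, (tent p w (y j) - tent p w (y i)) * (y j - y i)⁻¹| ≤ ∑ j ∈ N, ∑ i ∈ N, (1 : ℝ) := by
      refine (abs_sum_le_sum_abs _ _).trans (sum_le_sum (fun j _ => ?_))
      refine (abs_sum_le_sum_abs _ _).trans (sum_le_sum (fun i _ => ?_))
      rw [abs_mul, abs_inv]
      rcases eq_or_ne (y j - y i) 0 with h | h
      · rw [h]; simp
      · rw [← div_eq_mul_inv, div_le_one (abs_pos.2 h)]
        exact tent_lip p w _ _
    refine h4.trans ?_
    rw [sum_const, sum_const, nsmul_eq_mul, nsmul_eq_mul, mul_one, ← sq]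
    exact pow_le_pow_left₀ (Nat.cast_nonneg _) hcard 2
  -- near-far
  have hFj : ∀ j ∈ N, tent p w (y j) ≠ 0 → |∑ i ∈ F, (y j - y i)⁻¹| ≤ 5 * K := by
    intro j _ hj
    have hv := hsupp j hj
    have h1 : ((∑ i ∈ F, (y j - y i)⁻¹ : ℝ) : ℂ) =
        ∑ i ∈ F, ((((y j - y i)⁻¹ : ℝ) : ℂ) - ((x : ℂ) - (y i : ℂ) - Complex.I * (a : ℂ))⁻¹) +
        ∑ i ∈ S, ((x : ℂ) - (y i : ℂ) - Complex.I * (a : ℂ))⁻¹ -
        ∑ i ∈ N, ((x : ℂ) - (y i : ℂ) - Complex.I * (a : ℂ))⁻¹ := by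
      rw [hsplitC, sum_sub_distrib]
      push_cast
      ring
    have h2 : ‖∑ i ∈ F, ((((y j - y i)⁻¹ : ℝ) : ℂ) - ((x : ℂ) - (y i : ℂ) - Complex.I * (a : ℂ))⁻¹)‖ ≤ 2 * K := by
      refine (norm_sum_le _ _).trans ?_
      refine (sum_le_sum (fun i hi => far_term x a (y j) (y i) ha hv ?_)).trans ?_
      · rw [hF, mem_filter] at hi
        exact not_le.1 hi.2
      · rw [← mul_sum]
        have h5 : ∑ i ∈ F, a / ((x - y i) ^ 2 + a ^ 2) ≤ ∑ i ∈ S, a / ((x - y i) ^ 2 + a ^ 2) := by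
          apply sum_le_sum_of_subset_of_nonneg (filter_subset _ _)
          intro i _ _
          positivity
        linarith
    have h3 : ‖∑ i ∈ N, ((x : ℂ) - (y i : ℂ) - Complex.I * (a : ℂ))⁻¹‖ ≤ 2 * K := by
      refine (norm_sum_le _ _).trans ?_
      have h6 : ∀ i ∈ N, ‖((x : ℂ) - (y i : ℂ) - Complex.I * (a : ℂ))⁻¹‖ ≤ 1 / a := by
        intro i _
        rw [norm_inv, ← one_div]
        apply one_div_le_one_div_of_le ha
        have h7 := norm_sub_I (x - y i) a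
        rw [Complex.ofReal_sub] at h7
        by_contra hc
        push Not at hc
        have h8 := norm_nonneg ((x : ℂ) - (y i : ℂ) - Complex.I * (a : ℂ))
        nlinarith [sq_nonneg (x - y i)]
      refine (sum_le_sum h6).trans ?_
      rw [sum_const, nsmul_eq_mul, mul_one_div, div_le_iff₀ ha]
      linarith
    have h4 : |∑ i ∈ F, (y j - y i)⁻¹| = ‖((∑ i ∈ F, (y j - y i)⁻¹ : ℝ) : ℂ)‖ := by
      rw [Complex.norm_real, Real.norm_eq_abs]
    rw [h4, h1]
    refine (norm_sub_le _ _).trans ?_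
    have h5 := norm_add_le (∑ i ∈ F, ((((y j - y i)⁻¹ : ℝ) : ℂ) - ((x : ℂ) - (y i : ℂ) - Complex.I * (a : ℂ))⁻¹))
      (∑ i ∈ S, ((x : ℂ) - (y i : ℂ) - Complex.I * (a : ℂ))⁻¹)
    linarith
  have h5 : |∑ j ∈ N, tent p w (y j) * (2 * ∑ i ∈ F, (y j - y i)⁻¹)| ≤ 2 * a * K * (w / 2 * (2 * (5 * K))) := by
    have h6 : |∑ j ∈ N, tent p w (y j) * (2 * ∑ i ∈ F, (y j - y i)⁻¹)| ≤ ∑ j ∈ N, (w / 2 * (2 * (5 * K))) := by
      refine (abs_sum_le_sum_abs _ _).trans (sum_le_sum (fun j hj => ?_))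
      rcases eq_or_ne (tent p w (y j)) 0 with h | h
      · rw [h, zero_mul, abs_zero]; positivity
      · rw [abs_mul, abs_mul, abs_of_nonneg (tent_nonneg p w _), abs_two]
        have h7 := hFj j hj h
        have h8 := tent_le (p := p) hw0.le (y j)
        gcongr
    refine h6.trans ?_
    rw [sum_const, nsmul_eq_mul]
    gcongr
  rw [e1]
  refine (abs_add_le _ _).trans ((add_le_add h3 h5).trans ?_)
  rw [hw]
  nlinarith [sq_nonneg (a * K)]

end Pool.Agent.P8H57.PC
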